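import Pool.Agent.Work.StdConj.Hyper

/-!
Local form: the Lefschetz standard conjecture for `X` and the Kuenneth conjecture for a very
general hypersurface section of `X × X`.
-/

open CategoryTheory MonoidalCategory CartesianMonoidalCategory

universe u v w x b

namespace Pool.Std.Loc

open Pool.KC Pool.SL

variable {V : Type u} [Category.{v} V] [CartesianMonoidalCategory V] {K : Type x} [Field K]
variable {T : WeilTheory.{u, v, w, x} V K}

/-- a class acting by zero on the middle cohomology comes from `X` if the cohomology outside the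
middle degree does -/
theorem exists_of_mid {X Y : V} {i : Y ⟶ X}
    (hres : ∀ j, j ≠ T.dim Y → ∀ y ∈ T.deg Y j, ∃ a ∈ T.deg X j, T.pull i a = y)
    {z : T.H (Y ⊗ Y)} (hz : z ∈ T.deg (Y ⊗ Y) (2 * T.dim Y))
    (hmid : ∀ a ∈ T.deg Y (T.dim Y), T.act z a = 0) :
    ∃ g ∈ T.deg (X ⊗ X) (2 * T.dim Y), T.pull (sq i) g = z := by
  have h1 : z = ∑ k ∈ Finset.range (2 * T.dim Y + 1),
      T.component Y Y (2 * T.dim Y - k) k z := by
    apply T.act_injective
    ext a
    have h2 : T.act (∑ k ∈ Finset.range (2 * T.dim Y + 1),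
        T.component Y Y (2 * T.dim Y - k) k z) a =
        ∑ k ∈ Finset.range (2 * T.dim Y + 1), T.act z (T.proj Y k a) := by
      rw [← T.actEquiv_apply, map_sum, LinearMap.sum_apply]
      apply Finset.sum_congr rfl
      intro k hk
      rw [Finset.mem_range] at hk
      rw [T.actEquiv_apply, T.act_component (by omega)]
      simp only [LinearMap.comp_apply]
      rw [show 2 * T.dim Y - (2 * T.dim Y - k) = k by omega]
      exact T.proj_same (T.act_deg hz (by omega) (T.proj_mem k a))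
    rw [h2, ← map_sum]
    congr 1
    have h3 := congrArg (fun f : Module.End K (T.H Y) => f a) (T.projs Y).sum
    simpa [LinearMap.sum_apply] using h3.symm
  have h3 : z ∈ (T.deg (X ⊗ X) (2 * T.dim Y)).map (T.pull (sq i)).toLinearMap := by
    rw [h1]
    apply sum_mem
    intro k hk
    rw [Finset.mem_range] at hk
    by_cases hkd : k = T.dim Y
    · have h4 : T.component Y Y (2 * T.dim Y - k) k z = 0 := by
        apply T.act_injective
        rw [T.act_component (by omega), T.act_zero]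
        ext a
        simp only [LinearMap.comp_apply, LinearMap.zero_apply]
        rw [show 2 * T.dim Y - (2 * T.dim Y - k) = k by omega]
        rw [hmid _ (T.deg_of_eq (T.proj_mem k a) hkd), map_zero]
      rw [h4]
      exact zero_mem _
    · exact component_mem_range (hres _ (by omega)) (hres _ hkd) (by omega) z
  exact h3

variable {R : Cyc T}

theorem res_ne {X : V} {c : T.H X} (hc : c ∈ R.A X 1) (S : Sect R c) (j : ℕ)
    (hj : j ≠ T.dim S.Y) : ∀ y ∈ T.deg S.Y j, ∃ a ∈ T.deg X j, T.pull S.i a = y := by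
  intro y hy
  rcases Nat.lt_or_ge (2 * T.dim S.Y) j with h0 | h0
  · exact ⟨0, zero_mem _, by rw [map_zero, T.deg_eq_zero hy h0]⟩
  rcases Nat.lt_or_ge j (T.dim S.Y) with h1 | h1
  · exact S.weak _ h1 y hy
  · obtain ⟨e, he, hey⟩ := S.hard (2 * T.dim S.Y - j) (j - T.dim S.Y) (by omega) y
      (T.deg_of_eq hy (by omega))
    obtain ⟨a, ha, hae⟩ := S.weak _ (by omega) e he
    refine ⟨c ^ (j - T.dim S.Y) * a, ?_, ?_⟩
    · exact T.deg_of_eq (T.mul_deg (R.deg (R.pow hc _)) ha) (by omega)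
    · rw [map_mul, map_pow, hae, hey]

/-- the Kuenneth conjecture for a very general section gives algebraic quasi-inverses of the
Lefschetz operator in each degree -/
theorem exists_g {X : V} {c : T.H X} (hc : c ∈ R.A X 1) (S : Sect R c) (hC : R.KunnethC S.Y)
    {j : ℕ} (hj : j ≠ T.dim S.Y) :
    ∃ g ∈ R.A (X ⊗ X) (T.dim X - 1), (∀ a ∈ T.deg X j, c * T.act g (c * a) = c * a) ∧
      ∀ k, k ≠ j → ∀ a ∈ T.deg X k, c * T.act g (c * a) = 0 := by
  have hd := S.dim
  obtain ⟨z, hz, h1, h0⟩ := hC j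
  obtain ⟨g0, hg0, hg0z⟩ := exists_of_mid (res_ne hc S) (R.deg hz)
    (fun a ha => h0 _ (Ne.symm hj) a ha)
  obtain ⟨g, hg, s, hgz⟩ := S.spread z hz ⟨g0, hg0, 0, by rw [zero_smul, add_zero, hg0z]⟩
  have hs : s = 0 := by
    have h2 : T.act z S.v = 0 := h0 _ (Ne.symm hj) _ S.v_mem
    rw [hgz, T.act_add, T.act_smul, LinearMap.add_apply, LinearMap.smul_apply,
      act_sq_van S.i g S.v_orth, zero_add, T.act_diag, LinearMap.id_apply] at h2
    exact (smul_eq_zero.mp h2).resolve_right S.v_ne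
  rw [hs, zero_smul, add_zero] at hgz
  have hcC : c ∈ T.C X 1 := R.le hc
  have key : ∀ a : T.H X, T.act z (T.pull S.i a) =
      (S.r : K) • T.pull S.i (T.act g (c * a)) := by
    intro a
    have h3 := act_sq_pull S.i hcC S.tr g a
    rw [← T.even_comm (R.deg hc) a, ← hgz] at h3
    exact h3
  have hker : ∀ ζ : T.H X, T.pull S.i ζ = 0 → c * ζ = 0 := by
    intro ζ hζ
    apply T.nondeg
    intro b
    have h5 := S.tr (b * ζ)
    rw [map_mul, hζ, mul_zero, map_zero] at h5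
    rw [T.even_comm (R.deg hc) ζ, ← mul_assoc]
    exact (mul_eq_zero.mp h5.symm).resolve_left S.r_ne
  refine ⟨(S.r : K) • g, R.smul _ (R.of_eq hg (by omega)), ?_, ?_⟩
  · intro a ha
    rw [T.act_smul, LinearMap.smul_apply, ← sub_eq_zero, ← mul_sub]
    apply hker
    rw [map_sub, map_smul, ← key, h1 _ (T.pull_deg _ ha), sub_self]
  · intro k hk a ha
    rw [T.act_smul, LinearMap.smul_apply]
    apply hker
    rw [map_smul, ← key]
    exact h0 k hk _ (T.pull_deg _ ha)

variable {G : Pl.{u, v, w, x, b} R}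

/-- projectors of `X` from quasi-inverses on `Z × X` -/
theorem exists_pi {Z X : V} (N : G.Bund Z) (M : G.Bund X) {t j : ℕ} (ht : t + 1 ≤ T.dim Z)
    {g : T.H ((Z ⊗ X) ⊗ (Z ⊗ X))} (hg : g ∈ R.A ((Z ⊗ X) ⊗ (Z ⊗ X)) (T.dim (Z ⊗ X) - 1))
    (h1 : ∀ a ∈ T.deg (Z ⊗ X) (j + 2 * t), G.c (G.box N M) * T.act g (G.c (G.box N M) * a) =
      G.c (G.box N M) * a)
    (h0 : ∀ k, k ≠ j + 2 * t → ∀ a ∈ T.deg (Z ⊗ X) k,
      G.c (G.box N M) * T.act g (G.c (G.box N M) * a) = 0) :
    ∃ f ∈ R.Op X X (T.dim X), (∀ a ∈ T.deg X j, f a = T.tr Z (G.c N ^ T.dim Z) • a) ∧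
      ∀ k, k ≠ j → ∀ a ∈ T.deg X k, f a = 0 := by
  have hdim := T.dim_prod Z X
  have hm1 : T.pull (fst Z X) (G.c N ^ t) ∈ R.A (Z ⊗ X) t := R.pull _ (G.c_pow_mem N t)
  have hm2 : T.pull (fst Z X) (G.c N ^ (T.dim Z - 1 - t)) ∈ R.A (Z ⊗ X) (T.dim Z - 1 - t) :=
    R.pull _ (G.c_pow_mem N _)
  have hop : T.push Z X ∘ₗ LinearMap.mulLeft K (T.pull (fst Z X) (G.c N ^ (T.dim Z - 1 - t))) ∘ₗ
      LinearMap.mulLeft K (G.c (G.box N M)) ∘ₗ T.act g ∘ₗ
      LinearMap.mulLeft K (G.c (G.box N M)) ∘ₗ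
      LinearMap.mulLeft K (T.pull (fst Z X) (G.c N ^ t)) ∘ₗ (T.pull (snd Z X)).toLinearMap ∈
      R.Op X X (T.dim X) := by
    have e0 := Cyc.Op_comp (Cyc.Op_pull (R := R) (snd Z X)) (Cyc.Op_mul hm1)
      (t := T.dim X + t) (by omega)
    have e1 := Cyc.Op_comp e0 (Cyc.Op_mul (G.c_mem (G.box N M)))
      (t := T.dim X + t + 1) (by omega)
    have e2 := Cyc.Op_comp e1 (Cyc.act_mem_Op hg) (t := T.dim X + t) (by omega)
    have e3 := Cyc.Op_comp e2 (Cyc.Op_mul (G.c_mem (G.box N M))) (t := T.dim X + t + 1)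
      (by omega)
    have e4 := Cyc.Op_comp e3 (Cyc.Op_mul hm2) (t := T.dim X + T.dim Z) (by omega)
    exact Cyc.Op_comp e4 (Cyc.Op_push (R := R) Z X) (by omega)
  refine ⟨_, hop, ?_, ?_⟩
  · intro a ha
    change T.push Z X (T.pull (fst Z X) (G.c N ^ (T.dim Z - 1 - t)) * (G.c (G.box N M) *
      T.act g (G.c (G.box N M) * (T.pull (fst Z X) (G.c N ^ t) * T.pull (snd Z X) a)))) = _
    have hdeg : T.pull (fst Z X) (G.c N ^ t) * T.pull (snd Z X) a ∈
        T.deg (Z ⊗ X) (j + 2 * t) :=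
      T.deg_of_eq (T.mul_deg (T.fst_deg (G.c_pow_deg N t)) (T.snd_deg ha)) (by omega)
    have e1 : T.pull (fst Z X) (G.c N ^ (T.dim Z - 1 - t)) *
        (T.pull (fst Z X) (G.c N * G.c N ^ t) * T.pull (snd Z X) a) =
        T.pull (fst Z X) (G.c N ^ T.dim Z) * T.pull (snd Z X) a := by
      rw [← mul_assoc, ← map_mul, ← pow_succ', ← pow_add,
        show T.dim Z - 1 - t + (t + 1) = T.dim Z by omega]
    have e2 : T.pull (fst Z X) (G.c N ^ (T.dim Z - 1 - t)) *
        (T.pull (fst Z X) (G.c N ^ t) * T.pull (snd Z X) (G.c M * a)) =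
        T.pull (fst Z X) (G.c N ^ (T.dim Z - 1)) * T.pull (snd Z X) (G.c M * a) := by
      rw [← mul_assoc, ← map_mul, ← pow_add,
        show T.dim Z - 1 - t + t = T.dim Z - 1 by omega]
    rw [h1 _ hdeg, Pl.box_mul', mul_add, e1, e2, map_add, T.push_pure, T.push_pure,
      T.tr_deg (G.c_pow_deg N (T.dim Z - 1)) (by omega), zero_smul, add_zero]
  · intro k hk a ha
    change T.push Z X (T.pull (fst Z X) (G.c N ^ (T.dim Z - 1 - t)) * (G.c (G.box N M) *
      T.act g (G.c (G.box N M) * (T.pull (fst Z X) (G.c N ^ t) * T.pull (snd Z X) a)))) = 0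
    have hdeg : T.pull (fst Z X) (G.c N ^ t) * T.pull (snd Z X) a ∈
        T.deg (Z ⊗ X) (k + 2 * t) :=
      T.deg_of_eq (T.mul_deg (T.fst_deg (G.c_pow_deg N t)) (T.snd_deg ha)) (by omega)
    rw [h0 (k + 2 * t) (by omega) _ hdeg, mul_zero, map_zero]

/-- **Lifting.** -/
theorem lift_op {U X : V} (N : G.Bund U) (M : G.Bund X) {m : ℕ} (hm : 1 ≤ m)
    (hd : T.dim U + T.dim X = 2 * m) {g : T.H ((U ⊗ X) ⊗ (U ⊗ X))}
    (hg : g ∈ R.A ((U ⊗ X) ⊗ (U ⊗ X)) (T.dim (U ⊗ X) - 1))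
    (hreg : ∀ a ∈ T.deg (U ⊗ X) (2 * (m - 1)),
      G.c (G.box N M) * T.act g (G.c (G.box N M) * a) = G.c (G.box N M) * a)
    {f κ : T.H U →ₗ[K] T.H X} (hf : f ∈ R.Op U X m)
    (h0 : ∀ i, i + 2 * (m - 1) < 2 * T.dim U → ∀ a ∈ T.deg U i, κ a = 0)
    (h1 : ∀ i l, i + 2 * (m - 1) = 2 * T.dim U + l → ∀ a ∈ T.deg U i, κ a ∈ T.deg X l)
    (hrel : ∀ a, G.c M * κ a + κ (G.c N * a) = f a) : κ ∈ R.Op U X (m - 1) := by
  obtain ⟨ζ0, hζ0⟩ := T.act_surjective (X := U) (Y := X) κ
  have hdeg : ∃ ζ ∈ T.deg (U ⊗ X) (2 * (m - 1)), T.act ζ = κ := by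
    refine ⟨T.proj (U ⊗ X) (2 * (m - 1)) ζ0, T.proj_mem _ _, ?_⟩
    rw [← hζ0]
    apply LinearMap.ext
    intro a
    refine T.hind (P := fun a => T.act (T.proj (U ⊗ X) (2 * (m - 1)) ζ0) a = T.act ζ0 a)
      (by simp) ?_ ?_ a
    · intro i a ha
      have hz0 := T.proj_mem (X := U ⊗ X) (2 * (m - 1)) ζ0
      rcases Nat.lt_or_ge (i + 2 * (m - 1)) (2 * T.dim U) with hi | hi
      · have e1 := h0 i hi a ha
        rw [← hζ0] at e1
        rw [act_eq_zero T.toCohomology hz0 ha hi, e1]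
      · obtain ⟨l, hl⟩ : ∃ l, i + 2 * (m - 1) = 2 * T.dim U + l :=
          ⟨i + 2 * (m - 1) - 2 * T.dim U, by omega⟩
        have e1 := h1 i l hl a ha
        rw [← hζ0] at e1
        rw [← T.proj_same (T.act_deg hz0 hl ha), ← T.proj_same e1]
        obtain ⟨s, hs⟩ := T.sum_proj ζ0
        have e2 := hs (s ∪ {2 * (m - 1)}) Finset.subset_union_left
        conv_rhs => rw [← e2]
        rw [← T.actEquiv_apply, ← T.actEquiv_apply, map_sum, LinearMap.sum_apply, map_sum]
        rw [Finset.sum_eq_single (2 * (m - 1))]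
        · intro j _ hjk
          rw [T.actEquiv_apply]
          rcases Nat.lt_or_ge (i + j) (2 * T.dim U) with hj | hj
          · rw [act_eq_zero T.toCohomology (T.proj_mem j ζ0) ha hj, map_zero]
          · obtain ⟨l', hl'⟩ : ∃ l', i + j = 2 * T.dim U + l' := ⟨i + j - 2 * T.dim U, by omega⟩
            exact T.proj_ne (T.act_deg (T.proj_mem j ζ0) hl' ha) (by omega)
        · intro h
          exact absurd (Finset.mem_union_right _ (Finset.mem_singleton_self _)) h
    · intro p q h1 h2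
      rw [map_add, map_add, h1, h2]
  obtain ⟨ζ, hζ, hζa⟩ := hdeg
  obtain ⟨z, hz, hza⟩ := hf
  have hdW : T.dim (U ⊗ X) = 2 * m := by rw [T.dim_prod, hd]
  have h2 : G.c (G.box N M) * ζ = z := by
    apply T.act_injective
    apply LinearMap.ext
    intro a
    rw [G.c_box, add_mul, T.act_add, LinearMap.add_apply, T.act_fst_mul,
      T.act_snd_mul (G.c_deg M), ← G.c_comm, hza, ← hrel a, hζa, add_comm]
  have h3 := hreg ζ hζ
  have h4 : T.act g z ∈ R.A (U ⊗ X) (m - 1) :=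
    R.act_mem (i := m - 1) (j := m) (k := T.dim (U ⊗ X) - 1) hg hz (by omega)
  rw [h2] at h3
  have h6 : T.act g z = ζ := by
    rw [← sub_eq_zero]
    apply G.hard_inj (G.box N M) (i := 2 * (m - 1)) (k := 2) (by omega)
    · exact sub_mem (R.deg h4) hζ
    · rw [pow_two, mul_assoc, mul_sub, h3, h2, sub_self, mul_zero]
  exact ⟨ζ, by rw [← h6]; exact h4, hζa⟩

/-- the operator `f_s` -/
theorem exists_f {X : V} (M : G.Bund X) {s : ℕ} (hs : 1 ≤ s) (hsX : s ≤ T.dim X) :
    ∃ f : Module.End K (T.H X),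
      (∀ i < 2, ∀ a ∈ T.deg X i, f a = 0) ∧ (∀ i, ∀ a ∈ T.deg X (i + 2), f a ∈ T.deg X i) ∧
      (∀ a ∈ T.deg X (T.dim X - s), f (G.c M * a) = a) ∧
      (∀ a ∈ T.deg X (T.dim X - s),
        f (G.c M ^ s * a) = (-1 : K) ^ (s - 1) • (G.c M ^ (s - 1) * a)) ∧
      (∀ a ∈ T.deg X (T.dim X - s + 2), G.c M ^ (s - 1) * a = 0 → f a = 0) ∧
      ∀ a, G.c M * f a + f (G.c M * a) = T.proj X (T.dim X - s) a +
        (-1 : K) ^ (s - 1) • T.proj X (T.dim X + s) a := by
  set c := G.c M with hc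
  have hcd : c ∈ T.deg X (2 * 1) := G.c_deg M
  have hcp : ∀ (t : ℕ) {i : ℕ} {a : T.H X}, a ∈ T.deg X i → c ^ t * a ∈ T.deg X (i + 2 * t) :=
    fun t i a ha => T.deg_of_eq (T.mul_deg (G.c_pow_deg M t) ha) (by omega)
  obtain ⟨θ, hθ1, hθ2⟩ := (G.hard M).exists_inv hcd (i := T.dim X - s) (k := s) (by omega)
  have hθd : ∀ a ∈ T.deg X (T.dim X - s + 2 * s), θ a ∈ T.deg X (T.dim X - s) := by
    intro a ha
    obtain ⟨e, he, hea⟩ := G.hard_surj M (i := T.dim X - s) (k := s) (by omega) a ha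
    rw [← hea, hθ1 e he]
    exact he
  let piece : ℕ → Module.End K (T.H X) := fun t =>
    (-1 : K) ^ t • (LinearMap.mulLeft K (c ^ t) ∘ₗ θ ∘ₗ LinearMap.mulLeft K (c ^ (s - 1 - t)))
  have hpiece : ∀ t a, piece t a = (-1 : K) ^ t • (c ^ t * θ (c ^ (s - 1 - t) * a)) :=
    fun t a => rfl
  let f : Module.End K (T.H X) :=
    ∑ t ∈ Finset.range s, piece t ∘ₗ T.proj X (T.dim X - s + 2 * t + 2)
  have hfa : ∀ a, f a = ∑ t ∈ Finset.range s, piece t (T.proj X (T.dim X - s + 2 * t + 2) a) := by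
    intro a
    change (∑ t ∈ Finset.range s, piece t ∘ₗ T.proj X (T.dim X - s + 2 * t + 2)) a = _
    rw [LinearMap.sum_apply]
    rfl
  have hf1 : ∀ t < s, ∀ a ∈ T.deg X (T.dim X - s + 2 * t + 2), f a = piece t a := by
    intro t ht a ha
    rw [hfa, Finset.sum_eq_single t]
    · rw [T.proj_same ha]
    · intro r _ hr
      rw [T.proj_ne ha (by omega), map_zero]
    · intro h
      exact absurd (Finset.mem_range.2 ht) h
  have hf0 : ∀ d, (∀ t < s, d ≠ T.dim X - s + 2 * t + 2) → ∀ a ∈ T.deg X d, f a = 0 := by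
    intro d hd a ha
    rw [hfa]
    apply Finset.sum_eq_zero
    intro t ht
    rw [T.proj_ne ha (hd t (Finset.mem_range.1 ht)), map_zero]
  refine ⟨f, ?_, ?_, ?_, ?_, ?_, ?_⟩
  · intro i hi a ha
    exact hf0 i (fun t _ => by omega) a ha
  · intro i a ha
    by_cases h : ∃ t < s, i = T.dim X - s + 2 * t
    · obtain ⟨t, ht, rfl⟩ := h
      rw [hf1 t ht a ha, hpiece]
      apply Submodule.smul_mem
      exact hcp t (hθd _ (T.deg_of_eq (hcp (s - 1 - t) ha) (by omega)))
    · rw [hf0 (i + 2) (fun t ht h2 => h ⟨t, ht, by omega⟩) a ha]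
      exact zero_mem _
  · intro a ha
    have h1 := hcp 1 ha
    rw [pow_one] at h1
    rw [hf1 0 (by omega) _ (T.deg_of_eq h1 (by omega)), hpiece, pow_zero, one_smul, pow_zero,
      one_mul, ← mul_assoc, ← pow_succ, show s - 1 - 0 + 1 = s by omega, hθ1 a ha]
  · intro a ha
    rw [hf1 (s - 1) (by omega) _ (T.deg_of_eq (hcp s ha) (by omega)), hpiece,
      show s - 1 - (s - 1) = 0 by omega, pow_zero, one_mul, hθ1 a ha]
  · intro a ha h
    rw [hf1 0 (by omega) _ (T.deg_of_eq ha (by omega)), hpiece, show s - 1 - 0 = s - 1 by omega,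
      h, map_zero, mul_zero, smul_zero]
  · intro a
    refine T.hind (P := fun a => c * f a + f (c * a) = T.proj X (T.dim X - s) a +
        (-1 : K) ^ (s - 1) • T.proj X (T.dim X + s) a) (by simp) ?_ ?_ a
    · intro d a ha
      have h1 := hcp 1 ha
      rw [pow_one] at h1
      have hmul : ∀ (t : ℕ) (y : T.H X), c * (c ^ t * y) = c ^ (t + 1) * y := by
        intro t y
        rw [← mul_assoc, ← pow_succ']
      have hmul' : ∀ (t : ℕ) (y : T.H X), c ^ t * (c * y) = c ^ (t + 1) * y := by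
        intro t y
        rw [← mul_assoc, ← pow_succ]
      by_cases h : ∃ r ≤ s, d = T.dim X - s + 2 * r
      · obtain ⟨r, hr, rfl⟩ := h
        rcases Nat.eq_zero_or_pos r with h0 | h0
        · -- the bottom
          subst h0
          rw [hf0 _ (fun t _ => by omega) a ha,
            hf1 0 (by omega) _ (T.deg_of_eq h1 (by omega)), hpiece, hmul',
            show s - 1 - 0 + 1 = s by omega, hθ1 a (T.deg_of_eq ha (by omega)), pow_zero, one_smul,
            pow_zero, one_mul, mul_zero, zero_add, T.proj_same (T.deg_of_eq ha (by omega)),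
            T.proj_ne ha (show T.dim X - s + 2 * 0 ≠ T.dim X + s by omega), smul_zero, add_zero]
        · rcases Nat.lt_or_ge r s with h2 | h2
          · -- in between
            obtain ⟨r, rfl⟩ : ∃ r', r = r' + 1 := ⟨r - 1, by omega⟩
            rw [hf1 r (by omega) _ (T.deg_of_eq ha (by omega)),
              hf1 (r + 1) (by omega) _ (T.deg_of_eq h1 (by omega)), hpiece, hpiece, hmul',
              show s - 1 - (r + 1) + 1 = s - 1 - r by omega, mul_smul_comm, hmul, pow_succ (-1 : K),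
              mul_neg_one, neg_smul, add_neg_cancel,
              T.proj_ne ha (show T.dim X - s + 2 * (r + 1) ≠ T.dim X - s by omega),
              T.proj_ne ha (show T.dim X - s + 2 * (r + 1) ≠ T.dim X + s by omega), smul_zero,
              add_zero]
          · -- the top
            have h3 : r = s := by omega
            subst h3
            rw [hf1 (r - 1) (by omega) _ (T.deg_of_eq ha (by omega)),
              hf0 _ (fun t _ => by omega) _ h1, hpiece, show r - 1 - (r - 1) = 0 by omega,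
              pow_zero, one_mul, mul_smul_comm, hmul, show r - 1 + 1 = r by omega,
              hθ2 a ha, add_zero,
              T.proj_ne ha (show T.dim X - r + 2 * r ≠ T.dim X - r by omega), zero_add,
              T.proj_same (T.deg_of_eq ha (by omega))]
      · have h2 : ∀ r ≤ s, d ≠ T.dim X - s + 2 * r := fun r hr hd => h ⟨r, hr, hd⟩
        rw [hf0 d (fun t ht hd => h2 (t + 1) (by omega) (by omega)) a ha,
          hf0 (d + 2 * 1) (fun t ht hd => h2 t (by omega) (by omega)) _ h1, mul_zero, add_zero,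
          T.proj_ne ha (fun hd => h2 0 (by omega) (by omega)),
          T.proj_ne ha (fun hd => h2 s le_rfl (by omega)), smul_zero, add_zero]
    · intro a e h1 h2
      simp only [mul_add, map_add, smul_add]
      rw [show c * f a + c * f e + (f (c * a) + f (c * e)) =
        (c * f a + f (c * a)) + (c * f e + f (c * e)) by abel, h1, h2]
      abel

/-- the local form -/
theorem lefB_of_kunneth {X : V} (M : G.Bund X) (S : Sect R (G.c (G.box M M)))
    (htr : T.tr X (G.c M ^ T.dim X) ≠ 0)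
    (hdiv : ∀ e ∈ R.A (X ⊗ X) (T.dim X),
      (T.tr X (G.c M ^ T.dim X))⁻¹ • e ∈ R.A (X ⊗ X) (T.dim X))
    (hC : R.KunnethC S.Y) : G.LefB M := by
  have hd := S.dim
  have hdim := T.dim_prod X X
  set n := T.dim X with hn
  set c := G.c M with hc
  rcases Nat.eq_zero_or_pos n with h0 | hX
  · refine ⟨0, zero_mem _, ?_⟩
    intro i y _
    rw [T.act_zero]
    exact ⟨rfl, fun j hj => by omega⟩
  have hcd : c ∈ T.deg X (2 * 1) := G.c_deg M
  have hcp : ∀ (t : ℕ) {i : ℕ} {a : T.H X}, a ∈ T.deg X i → c ^ t * a ∈ T.deg X (i + 2 * t) :=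
    fun t i a ha => T.deg_of_eq (T.mul_deg (G.c_pow_deg M t) ha) (by omega)
  -- the projectors
  have hpi0 : ∀ j : ℕ, (j ≠ n ∨ 2 ≤ n) → ∃ f ∈ R.Op X X n,
      (∀ a ∈ T.deg X j, f a = T.tr X (c ^ n) • a) ∧ ∀ k, k ≠ j → ∀ a ∈ T.deg X k, f a = 0 := by
    intro j hj
    by_cases h2 : j + 1 = 2 * n
    · obtain ⟨g, hg, h1, h0⟩ := exists_g (G.c_mem (G.box M M)) S hC (j := j + 2 * 1) (by omega)
      exact exists_pi M M (t := 1) (by omega) hg h1 h0
    · obtain ⟨g, hg, h1, h0⟩ := exists_g (G.c_mem (G.box M M)) S hC (j := j + 2 * 0) (by omega)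
      exact exists_pi M M (t := 0) (by omega) hg h1 h0
  have hpi : ∀ j : ℕ, (j ≠ n ∨ 2 ≤ n) → T.proj X j ∈ R.Op X X n := by
    intro j hj
    obtain ⟨f, ⟨z, hz, hza⟩, h1, h2⟩ := hpi0 j hj
    refine ⟨_, hdiv z hz, ?_⟩
    rw [T.act_smul, hza]
    apply LinearMap.ext
    intro a
    refine T.hind (P := fun a => ((T.tr X (c ^ n))⁻¹ • f) a = T.proj X j a) (by simp) ?_ ?_ a
    · intro k a ha
      rw [LinearMap.smul_apply]
      by_cases hk : k = j
      · subst hk
        rw [h1 a ha, smul_smul, inv_mul_cancel₀ htr, one_smul, T.proj_same ha]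
      · rw [h2 k hk a ha, smul_zero, T.proj_ne ha hk]
    · intro a e h3 h4
      rw [map_add, map_add, h3, h4]
  -- the quasi-inverse in weight `-2`
  obtain ⟨g, hg, hg1, -⟩ := exists_g (G.c_mem (G.box M M)) S hC (j := 2 * (n - 1)) (by omega)
  -- the operators `f_s`
  have hF : ∀ s : ℕ, ∃ f : Module.End K (T.H X), f ∈ R.Op X X (n - 1) ∧
      (1 ≤ s → s ≤ n →
      (∀ a ∈ T.deg X (n - s), f (c * a) = a) ∧
      (∀ a ∈ T.deg X (n - s), f (c ^ s * a) = (-1 : K) ^ (s - 1) • (c ^ (s - 1) * a)) ∧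
      (∀ a ∈ T.deg X (n - s + 2), c ^ (s - 1) * a = 0 → f a = 0)) := by
    intro s
    by_cases hs : 1 ≤ s ∧ s ≤ n
    · obtain ⟨hs1, hs2⟩ := hs
      obtain ⟨f, f1, f2, f3, f4, f5, f6⟩ := exists_f M hs1 hs2
      refine ⟨f, ?_, fun _ _ => ⟨f3, f4, f5⟩⟩
      have hop : T.proj X (n - s) + (((-1 : ℚ) ^ (s - 1) : ℚ) : K) • T.proj X (n + s) ∈
          R.Op X X n :=
        add_mem (hpi _ (Or.inl (by omega))) (Cyc.Op_smul _ (hpi _ (Or.inl (by omega))))
      refine lift_op M M (m := n) hX (by omega) hg hg1 hop ?_ ?_ ?_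
      · intro i hi a ha
        exact f1 i (by omega) a ha
      · intro i l hil a ha
        exact f2 l a (T.deg_of_eq ha (by omega))
      · intro a
        rw [f6 a, LinearMap.add_apply, LinearMap.smul_apply]
        push_cast
        rfl
    · exact ⟨0, zero_mem _, fun h1 h2 => absurd ⟨h1, h2⟩ hs⟩
  choose F hFop hF using hF
  set Λ : Module.End K (T.H X) :=
    ∑ d ∈ Finset.Icc 2 n, F (n + 2 - d) ∘ₗ T.proj X d +
      ∑ s ∈ Finset.Icc 1 n, (((-1 : ℚ) ^ (s - 1) : ℚ) : K) • (F s ∘ₗ T.proj X (n + s)) with hΛ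
  have hΛop : Λ ∈ R.Op X X (n - 1) := by
    apply add_mem
    · apply sum_mem
      intro d hd
      rw [Finset.mem_Icc] at hd
      exact Cyc.Op_comp (hpi d (Or.inr (by omega))) (hFop _) (by omega)
    · apply sum_mem
      intro s hs
      rw [Finset.mem_Icc] at hs
      exact Cyc.Op_smul _ (Cyc.Op_comp (hpi _ (Or.inl (by omega))) (hFop _) (by omega))
  have hΛa : ∀ a, Λ a = ∑ d ∈ Finset.Icc 2 n, F (n + 2 - d) (T.proj X d a) +
      ∑ s ∈ Finset.Icc 1 n, (((-1 : ℚ) ^ (s - 1) : ℚ) : K) • F s (T.proj X (n + s) a) := by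
    intro a
    rw [hΛ, LinearMap.add_apply, LinearMap.sum_apply, LinearMap.sum_apply]
    rfl
  have hlow : ∀ d ≤ n, ∀ a ∈ T.deg X d, Λ a = if 2 ≤ d then F (n + 2 - d) a else 0 := by
    intro d hd a ha
    have e2 : ∑ s ∈ Finset.Icc 1 n, (((-1 : ℚ) ^ (s - 1) : ℚ) : K) •
        F s (T.proj X (n + s) a) = 0 := by
      apply Finset.sum_eq_zero
      intro s hs
      rw [Finset.mem_Icc] at hs
      rw [T.proj_ne ha (by omega), map_zero, smul_zero]
    rw [hΛa, e2, add_zero]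
    split_ifs with h2
    · rw [Finset.sum_eq_single d]
      · rw [T.proj_same ha]
      · intro k _ hk
        rw [T.proj_ne ha (Ne.symm hk), map_zero]
      · intro h
        exact absurd (Finset.mem_Icc.2 ⟨h2, hd⟩) h
    · apply Finset.sum_eq_zero
      intro k hk
      rw [Finset.mem_Icc] at hk
      rw [T.proj_ne ha (by omega), map_zero]
  have hhigh : ∀ s, 1 ≤ s → s ≤ n → ∀ a ∈ T.deg X (n + s),
      Λ a = (-1 : K) ^ (s - 1) • F s a := by
    intro s hs1 hs2 a ha
    have e2 : ∑ d ∈ Finset.Icc 2 n, F (n + 2 - d) (T.proj X d a) = 0 := by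
      apply Finset.sum_eq_zero
      intro d hd
      rw [Finset.mem_Icc] at hd
      rw [T.proj_ne ha (by omega), map_zero]
    rw [hΛa, e2, zero_add, Finset.sum_eq_single s]
    · rw [T.proj_same ha]
      push_cast
      rfl
    · intro k _ hk
      rw [T.proj_ne ha (by omega), map_zero, smul_zero]
    · intro h
      exact absurd (Finset.mem_Icc.2 ⟨hs1, hs2⟩) h
  obtain ⟨z, hz, hza⟩ := hΛop
  refine ⟨z, hz, ?_⟩
  rw [hza]
  intro i y hy
  obtain ⟨hi, hyi, hyk⟩ := hy
  constructor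
  · rw [hlow i hi y hyi]
    split_ifs with h2
    · apply (hF (n + 2 - i) (by omega) (by omega)).2.2 y (T.deg_of_eq hyi (by omega))
      rw [show n + 2 - i - 1 = n - i + 1 by omega]
      exact hyk
    · rfl
  · intro j hj
    have hjy : c ^ j * y ∈ T.deg X (i + 2 * j) := hcp j hyi
    have hjy' : c ^ (j + 1) * y ∈ T.deg X (i + 2 * (j + 1)) := hcp (j + 1) hyi
    rcases Nat.lt_or_ge n (i + 2 * (j + 1)) with h2 | h2
    · obtain ⟨s, hs⟩ : ∃ s, i + 2 * (j + 1) = n + s := ⟨i + 2 * (j + 1) - n, by omega⟩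
      rw [hhigh s (by omega) (by omega) _ (T.deg_of_eq hjy' hs)]
      have e1 : c ^ (j + 1) * y = c ^ s * (c ^ (j + 1 - s) * y) := by
        rw [← mul_assoc, ← pow_add, show s + (j + 1 - s) = j + 1 by omega]
      rw [e1, (hF s (by omega) (by omega)).2.1 _ (T.deg_of_eq (hcp (j + 1 - s) hyi) (by omega)),
        smul_smul, ← pow_add, ← two_mul, pow_mul, neg_one_sq, one_pow, one_smul, ← mul_assoc,
        ← pow_add, show s - 1 + (j + 1 - s) = j by omega]
    · rw [hlow _ h2 _ hjy', if_pos (by omega), pow_succ' c j, mul_assoc]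
      exact (hF (n + 2 - (i + 2 * (j + 1))) (by omega) (by omega)).1 _
        (T.deg_of_eq hjy (by omega))

/-- the local form: `B(X)` holds iff the Kuenneth conjecture holds for a very general
hypersurface section of `X × X` -/
theorem lefB_iff_kunneth [CharZero K] {X : V} (M : G.Bund X) (S : Sect R (G.c (G.box M M)))
    (N : G.Bund S.Y) (hN : G.c N = T.pull S.i (G.c (G.box M M)))
    (htr : T.tr X (G.c M ^ T.dim X) ≠ 0)
    (hdiv : ∀ e ∈ R.A (X ⊗ X) (T.dim X),
      (T.tr X (G.c M ^ T.dim X))⁻¹ • e ∈ R.A (X ⊗ X) (T.dim X)) :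
    G.LefB M ↔ R.KunnethC S.Y := by
  have hd := S.dim
  have hdim := T.dim_prod X X
  constructor
  · intro h
    exact G.kunneth_of_lefB N (S.lefB N hN (by omega)
      (G.lefB_of_lef _ (Pl.lef_prod (G.lef_of_lefB M h) (G.lef_of_lefB M h))))
  · exact lefB_of_kunneth M S htr hdiv

end Pool.Std.Loc
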